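import Pool.Agent.H43.G.R_seed8.H469R2.NK.KL
import Pool.Agent.H43.G.R_seed8.Helper170.Weyl

open Finset

namespace Pool.Agent.H469R2.NK

lemma shift_sum {G : ℕ → ℂ} {L H j : ℕ} (hj : j ≤ H) (hG : ∀ p, ¬ (H ≤ p ∧ p < H + L) → G p = 0) :
    ∑ m ∈ range (L + H), G (m + j) = ∑ n ∈ range L, G (H + n) := by
  have h1 : ∑ m ∈ range (L + H), G (m + j) = ∑ p ∈ Ico j (L + H + j), G p := by
    rw [sum_Ico_eq_sum_range]
    refine sum_congr (by congr 1; omega) fun m _ => by rw [add_comm]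
  have h2 : ∑ n ∈ range L, G (H + n) = ∑ p ∈ Ico H (H + L), G p := by
    rw [sum_Ico_eq_sum_range]
    refine sum_congr (by congr 1; omega) fun m _ => rfl
  rw [h1, h2]
  symm
  apply sum_subset
  · intro p hp
    rw [mem_Ico] at hp ⊢
    omega
  · intro p _ hp
    apply hG
    rw [mem_Ico] at hp
    exact hp

/-- van der Corput's inequality with parameter `H`. -/
theorem vdcH (z : ℕ → ℂ) (hz : ∀ n, ‖z n‖ ≤ 1) (L H : ℕ) :
    (H : ℝ) * ‖∑ n ∈ range L, z n‖ ^ 2 ≤ (L + H) * (L + 2 * ∑ l ∈ Ico 1 H,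
      ‖∑ n ∈ range (L - l), z (n + l) * (starRingEnd ℂ) (z n)‖) := by
  rcases Nat.eq_zero_or_pos H with rfl | hH
  · simp; positivity
  set Z : ℕ → ℂ := fun p => if H ≤ p ∧ p < H + L then z (p - H) else 0 with hZ
  set c : ℕ → ℂ := fun l => ∑ n ∈ range (L - l), z (n + l) * (starRingEnd ℂ) (z n) with hc
  have hZ0 : ∀ p, ¬ (H ≤ p ∧ p < H + L) → Z p = 0 := fun p hp => by simp [hZ, hp]
  have hZ1 : ∀ n < L, Z (H + n) = z n := fun n hn => by
    simp only [hZ]
    rw [if_pos ⟨by omega, by omega⟩]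
    congr 1; omega
  have hS : ∑ m ∈ range (L + H), ∑ j ∈ range H, Z (m + j) = H * ∑ n ∈ range L, z n := by
    rw [sum_comm]
    have : ∀ j ∈ range H, ∑ m ∈ range (L + H), Z (m + j) = ∑ n ∈ range L, z n := by
      intro j hj
      rw [shift_sum (mem_range.mp hj).le hZ0]
      exact sum_congr rfl fun n hn => hZ1 n (mem_range.mp hn)
    rw [sum_congr rfl this, sum_const, card_range, nsmul_eq_mul]
  have hpair : ∀ j l, j + l < H → ∑ m ∈ range (L + H), Z (m + (j + l)) * (starRingEnd ℂ) (Z (m + j)) = c l := by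
    intro j l hjl
    have h1 := shift_sum (G := fun p => Z (p + l) * (starRingEnd ℂ) (Z p)) (L := L) (H := H)
      (j := j) (by omega) (fun p hp => by simp [hZ0 p hp])
    have h2 : ∀ m, Z (m + (j + l)) * (starRingEnd ℂ) (Z (m + j)) =
        Z (m + j + l) * (starRingEnd ℂ) (Z (m + j)) := fun m => by rw [add_assoc]
    rw [sum_congr rfl fun m _ => h2 m, h1, hc]
    simp only
    have h3 : range (L - l) ⊆ range L := range_subset_range.mpr (by omega)
    rw [← sum_subset h3]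
    · refine sum_congr rfl fun n hn => ?_
      have := mem_range.mp hn
      rw [hZ1 n (by omega), add_assoc, hZ1 (n + l) (by omega)]
    · intro n hn hn'
      have h4 := mem_range.mp hn
      have h5 : ¬ n < L - l := fun h => hn' (mem_range.mpr h)
      rw [hZ0 (H + n + l) (by omega), zero_mul]
  have hW : ∑ m ∈ range (L + H), ((‖∑ j ∈ range H, Z (m + j)‖ ^ 2 : ℝ) : ℂ) =
      ∑ j ∈ range H, ∑ j' ∈ range H, ∑ m ∈ range (L + H), Z (m + j) * (starRingEnd ℂ) (Z (m + j')) := by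
    have : ∀ m ∈ range (L + H), ((‖∑ j ∈ range H, Z (m + j)‖ ^ 2 : ℝ) : ℂ) =
        ∑ j ∈ range H, ∑ j' ∈ range H, Z (m + j) * (starRingEnd ℂ) (Z (m + j')) := by
      intro m _
      push_cast
      rw [← Complex.mul_conj', map_sum, sum_mul_sum]
    rw [sum_congr rfl this, sum_comm]
    refine sum_congr rfl fun j _ => ?_
    rw [sum_comm]
  have hbound : ∑ m ∈ range (L + H), ‖∑ j ∈ range H, Z (m + j)‖ ^ 2 ≤
      H * (L + 2 * ∑ l ∈ Ico 1 H, ‖c l‖) := by
    have h1 : ∑ m ∈ range (L + H), ‖∑ j ∈ range H, Z (m + j)‖ ^ 2 =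
        ‖∑ j ∈ range H, ∑ j' ∈ range H, ∑ m ∈ range (L + H), Z (m + j) * (starRingEnd ℂ) (Z (m + j'))‖ := by
      rw [← hW, ← Complex.ofReal_sum, Complex.norm_real, Real.norm_of_nonneg]
      positivity
    rw [h1, Helper170.Weyl.double_sum]
    refine (norm_add_le _ _).trans ?_
    have h2 : ‖∑ n ∈ range H, ∑ m ∈ range (L + H), Z (m + n) * (starRingEnd ℂ) (Z (m + n))‖ ≤ H * L := by
      have : ∀ n ∈ range H, ∑ m ∈ range (L + H), Z (m + n) * (starRingEnd ℂ) (Z (m + n)) = c 0 := by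
        intro n hn
        have := hpair n 0 (by simpa using mem_range.mp hn)
        simpa using this
      rw [sum_congr rfl this, sum_const, card_range, nsmul_eq_mul, norm_mul, Complex.norm_natCast]
      gcongr
      simp only [hc, Nat.sub_zero, add_zero]
      refine (norm_sum_le _ _).trans ?_
      calc ∑ i ∈ range L, ‖z i * (starRingEnd ℂ) (z i)‖ ≤ ∑ i ∈ range L, (1 : ℝ) := by
            refine sum_le_sum fun i _ => ?_
            rw [norm_mul, Complex.norm_conj]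
            nlinarith [hz i, norm_nonneg (z i)]
        _ = L := by simp
    have h3 : ‖∑ l ∈ Ico 1 H, ∑ n ∈ range (H - l),
        ((∑ m ∈ range (L + H), Z (m + (n + l)) * (starRingEnd ℂ) (Z (m + n))) +
          ∑ m ∈ range (L + H), Z (m + n) * (starRingEnd ℂ) (Z (m + (n + l))))‖ ≤
        H * (2 * ∑ l ∈ Ico 1 H, ‖c l‖) := by
      refine (norm_sum_le _ _).trans ?_
      rw [mul_sum, mul_sum]
      refine sum_le_sum fun l hl => ?_
      have hl' := mem_Ico.mp hl
      have h4 : ∀ n ∈ range (H - l), ((∑ m ∈ range (L + H), Z (m + (n + l)) * (starRingEnd ℂ) (Z (m + n))) +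
          ∑ m ∈ range (L + H), Z (m + n) * (starRingEnd ℂ) (Z (m + (n + l)))) =
          c l + (starRingEnd ℂ) (c l) := by
        intro n hn
        have hn' := mem_range.mp hn
        have h5 := hpair n l (by omega)
        rw [h5]
        congr 1
        rw [← h5, map_sum]
        refine sum_congr rfl fun m _ => ?_
        rw [map_mul, Complex.conj_conj, mul_comm]
      rw [sum_congr rfl h4, sum_const, card_range, nsmul_eq_mul, norm_mul, Complex.norm_natCast]
      have h6 : ‖c l + (starRingEnd ℂ) (c l)‖ ≤ 2 * ‖c l‖ := by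
        refine (norm_add_le _ _).trans ?_
        rw [Complex.norm_conj]; linarith
      have h7 : ((H - l : ℕ) : ℝ) ≤ H := by exact_mod_cast Nat.sub_le _ _
      calc ((H - l : ℕ) : ℝ) * ‖c l + (starRingEnd ℂ) (c l)‖ ≤ H * (2 * ‖c l‖) := by gcongr
        _ = _ := by ring
    have e1 : (H : ℝ) * (L + 2 * ∑ l ∈ Ico 1 H, ‖c l‖) = H * L + H * (2 * ∑ l ∈ Ico 1 H, ‖c l‖) := by ring
    rw [e1]
    exact add_le_add h2 h3
  have hCS : ‖∑ m ∈ range (L + H), ∑ j ∈ range H, Z (m + j)‖ ^ 2 ≤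
      (L + H) * ∑ m ∈ range (L + H), ‖∑ j ∈ range H, Z (m + j)‖ ^ 2 := by
    have h1 : ‖∑ m ∈ range (L + H), ∑ j ∈ range H, Z (m + j)‖ ≤
        ∑ m ∈ range (L + H), ‖∑ j ∈ range H, Z (m + j)‖ := norm_sum_le _ _
    have h2 := sq_sum_le_card_mul_sum_sq (s := range (L + H)) (f := fun m => ‖∑ j ∈ range H, Z (m + j)‖)
    rw [card_range] at h2
    push_cast at h2
    refine le_trans ?_ h2
    gcongr
  rw [hS, norm_mul, Complex.norm_natCast, mul_pow] at hCS
  have hH' : (0 : ℝ) < H := by exact_mod_cast hH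
  have h8 : (H : ℝ) ^ 2 * ‖∑ n ∈ range L, z n‖ ^ 2 ≤ (L + H) * (H * (L + 2 * ∑ l ∈ Ico 1 H, ‖c l‖)) :=
    hCS.trans (by gcongr)
  have h9 : (H : ℝ) * (H * ‖∑ n ∈ range L, z n‖ ^ 2) ≤ H * ((L + H) * (L + 2 * ∑ l ∈ Ico 1 H, ‖c l‖)) := by
    calc _ = (H : ℝ) ^ 2 * ‖∑ n ∈ range L, z n‖ ^ 2 := by ring
      _ ≤ _ := h8
      _ = _ := by ring
  exact le_of_mul_le_mul_left h9 hH'

end Pool.Agent.H469R2.NK
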