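import Pool.Agent.H43.G.R_seed8.H469R2.NK.Iter

open Finset

namespace Pool.Agent.H469R2.NK

lemma exp_bound (q : ℕ) (Z : ℝ) (hZ : 0 < Z) (N a L H : ℕ) (hN : 1 ≤ N) (ha : N ≤ a) (hL : L ≤ N)
    (haL : a + L ≤ 3 * N) (hH : 1 ≤ H) (hHN : H ≤ N)
    (hup : 2 * (Z * ((q + 1).factorial / (N : ℝ) ^ (q + 2) * (H : ℝ) ^ q)) ≤ 1) :
    (‖SS Z a L []‖ / N) ^ (2 ^ q) ≤ Cq q * (1 / H +
      (2 * (3 * N) ^ (q + 2) / (Z * (q + 1).factorial) / N) * ((∑ l ∈ Ico 1 H, (1 : ℝ) / l) / H) ^ q) := by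
  have hN' : (1 : ℝ) ≤ N := by exact_mod_cast hN
  have hH' : (1 : ℝ) ≤ H := by exact_mod_cast hH
  have hL' : (L : ℝ) ≤ N := by exact_mod_cast hL
  have hHN' : (H : ℝ) ≤ N := by exact_mod_cast hHN
  have hstep : ∀ ls : List ℕ, (‖SS Z a L ls‖ / N) ^ 2 ≤
      2 / H + 4 * ((∑ l ∈ Ico 1 H, ‖SS Z a L (l :: ls)‖ / N) / H) := by
    intro ls
    have h := SS_sq Z a L H ls
    set Sg := ∑ l ∈ Ico 1 H, ‖SS Z a L (l :: ls)‖ with hSg
    have hSg0 : 0 ≤ Sg := sum_nonneg fun _ _ => norm_nonneg _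
    have h2 : (H : ℝ) * ‖SS Z a L ls‖ ^ 2 ≤ (2 * N) * (N + 2 * Sg) := by
      refine h.trans ?_
      have : (L : ℝ) + H ≤ 2 * N := by linarith
      gcongr
    rw [← sum_div, ← hSg]
    have e1 : 2 / (H : ℝ) + 4 * (Sg / N / H) = ((2 * N) * (N + 2 * Sg)) / (H * N ^ 2) := by
      field_simp
      ring
    rw [e1, div_pow, div_le_div_iff₀ (by positivity) (by positivity)]
    calc ‖SS Z a L ls‖ ^ 2 * (H * N ^ 2) = ((H : ℝ) * ‖SS Z a L ls‖ ^ 2) * N ^ 2 := by ring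
      _ ≤ _ := by gcongr
  have hit := iterate hH (fun ls => ‖SS Z a L ls‖ / N) (fun ls => by positivity) hstep q []
  refine hit.trans ?_
  have hC := Cq_pos q
  gcongr
  have := Av_le (H := H) (T := fun ls => ‖SS Z a L ls‖ / N)
    (κ := 2 * (3 * N) ^ (q + 2) / (Z * (q + 1).factorial) / N) q (by
      intro ls hlen hent
      have hpos : 0 < ls.prod := List.prod_pos fun l hl => (hent l hl).1
      have hle : ls.prod ≤ H ^ q := by
        have := List.prod_le_pow_card ls H (fun l hl => (hent l hl).2.le)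
        rwa [hlen] at this
      have hle' : ((ls.prod : ℕ) : ℝ) ≤ (H : ℝ) ^ q := by exact_mod_cast hle
      have h1 := SS_le Z hZ N a L hN ha haL ls hpos (by
        rw [hlen]
        refine le_trans ?_ hup
        gcongr)
      rw [hlen] at h1
      have hP : (0 : ℝ) < (ls.prod : ℕ) := by exact_mod_cast hpos
      calc ‖SS Z a L ls‖ / N ≤ (2 * (3 * N) ^ (q + 2) / (Z * (q + 1).factorial * (ls.prod : ℕ))) / N := by gcongr
        _ = _ := by field_simp) q [] (by simp) (by simp)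
  simpa using this

lemma harm_le (H : ℕ) : ∑ l ∈ Ico 1 H, (1 : ℝ) / l ≤ 1 + Real.log H := by
  have h := harmonic_le_one_add_log H
  refine le_trans ?_ h
  rw [harmonic_eq_sum_Icc]
  push_cast
  simp only [one_div]
  apply sum_le_sum_of_subset_of_nonneg
  · intro l hl
    rw [mem_Ico] at hl
    rw [mem_Icc]
    omega
  · intros; positivity

lemma alg_aux (Z N F W A3 Y G X B : ℝ) (hZ : Z ≠ 0) (hN : N ≠ 0) (hF : F ≠ 0) (hW : W ≠ 0) :
    2 * (A3 * (Y * N)) / (Z * F) / N * (G * X * B / W) = (2 * A3 / F) * B * G * (X * Y / (Z * W)) := by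
  field_simp

/-- **Exponential sums `∑ e(Z/m)`.** -/
theorem exp_sum_bound (Q : ℕ) (hQ : 1 ≤ Q) (δ : ℝ) (hδ : 0 < δ) :
    ∃ η : ℝ, 0 < η ∧ η ≤ 1 ∧ ∃ C : ℝ, 0 < C ∧ ∀ (N a L : ℕ) (Z : ℝ), 1 ≤ N → N ≤ a → L ≤ N → a + L ≤ 3 * N →
      (N : ℝ) ^ (1 + δ) ≤ Z → Z ≤ (N : ℝ) ^ (Q + 1 : ℕ) →
      ‖∑ n ∈ range L, e (Z / ((a + n : ℕ) : ℝ))‖ ≤ C * (N : ℝ) ^ (1 - η) := by
  set η : ℝ := min (min δ 1) (1 / (4 * Q * 2 ^ Q)) with hη
  have hQ' : (1 : ℝ) ≤ Q := by exact_mod_cast hQ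
  have hη0 : 0 < η := by rw [hη]; positivity
  have hη1 : η ≤ 1 := (min_le_left _ _).trans (min_le_right _ _)
  have hηδ : η ≤ δ := (min_le_left _ _).trans (min_le_left _ _)
  have hηQ : η ≤ 1 / (4 * Q * 2 ^ Q) := min_le_right _ _
  set N0 : ℝ := max 16 ((2 * (Q + 1).factorial) ^ 2) with hN0
  set K : ℝ := Cq Q * (2 + (2 * 3 ^ (Q + 2) / (Q + 1).factorial) * 2 ^ Q * (1 + 4 * Q) ^ Q) with hK
  have hCq := Cq_pos Q
  have hK0 : 0 < K := by rw [hK]; positivity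
  set C : ℝ := max (max 18 N0) (K ^ ((1 : ℝ) / 2 ^ Q)) with hC
  refine ⟨η, hη0, hη1, C, by rw [hC]; positivity, ?_⟩
  intro N a L Z hN ha hL haL hZ1 hZ2
  have hN' : (1 : ℝ) ≤ N := by exact_mod_cast hN
  have hNpos : (0 : ℝ) < N := by linarith
  have hC18 : 18 ≤ C := (le_max_left _ _).trans (le_max_left _ _)
  have hCN0 : N0 ≤ C := (le_max_right _ _).trans (le_max_left _ _)
  have hCK : K ^ ((1 : ℝ) / 2 ^ Q) ≤ C := le_max_right _ _
  have hZ : 0 < Z := lt_of_lt_of_le (by positivity) hZ1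
  have hSS : ∑ n ∈ range L, e (Z / ((a + n : ℕ) : ℝ)) = SS Z a L [] := by
    unfold SS
    simp only [List.sum_nil, Nat.sub_zero]
    refine sum_congr rfl fun n _ => ?_
    congr 1
    simp only [D, pow_zero, Nat.factorial_zero, Nat.cast_one, mul_one, zero_add, pow_one]
    rw [mul_one_div]
  rw [hSS]
  have htriv : ‖SS Z a L []‖ ≤ N := by
    unfold SS
    refine (norm_sum_le _ _).trans ?_
    simp only [norm_e, sum_const, card_range, nsmul_eq_mul, mul_one, List.sum_nil, Nat.sub_zero]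
    exact_mod_cast hL
  rcases lt_or_ge (N : ℝ) N0 with hsmall | hbig
  · refine htriv.trans ?_
    calc (N : ℝ) ≤ N0 * 1 := by linarith
      _ ≤ C * (N : ℝ) ^ (1 - η) := by
        gcongr
        exact Real.one_le_rpow hN' (by linarith)
  have h16 : (16 : ℝ) ≤ N := (le_max_left _ _).trans hbig
  have hfac : ((2 * (Q + 1).factorial : ℕ) : ℝ) ^ 2 ≤ N := by
    push_cast
    exact (le_max_right _ _).trans hbig
  rcases le_or_gt Z ((N : ℝ) ^ (7 / 4 : ℝ)) with hcase | hcase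
  · -- direct Kusmin–Landau
    have h1 := SS_le Z hZ N a L hN ha haL [] (by simp) (by
      simp only [List.length_nil, zero_add, Nat.factorial_one, Nat.cast_one, List.prod_nil, mul_one]
      have e1 : (2 : ℝ) ≤ (N : ℝ) ^ (1 / 4 : ℝ) := by
        calc (2 : ℝ) = (16 : ℝ) ^ (1 / 4 : ℝ) := by
              rw [show (16 : ℝ) = 2 ^ (4 : ℝ) by norm_num, ← Real.rpow_mul (by norm_num)]; norm_num
          _ ≤ _ := by gcongr
      have e2 : (N : ℝ) ^ (7 / 4 : ℝ) * (N : ℝ) ^ (1 / 4 : ℝ) = (N : ℝ) ^ 2 := by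
        rw [← Real.rpow_add hNpos, ← Real.rpow_natCast]; norm_num
      rw [mul_one_div, ← mul_div_assoc, div_le_one (by positivity), ← e2]
      calc 2 * Z ≤ (N : ℝ) ^ (1 / 4 : ℝ) * (N : ℝ) ^ (7 / 4 : ℝ) := by gcongr
        _ = _ := by ring)
    simp only [List.length_nil, zero_add, Nat.factorial_one, Nat.cast_one, List.prod_nil, mul_one] at h1
    refine h1.trans ?_
    rw [div_le_iff₀ hZ]
    have e3 : (N : ℝ) ^ (1 - δ) * (N : ℝ) ^ (1 + δ) = (N : ℝ) ^ 2 := by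
      rw [← Real.rpow_add hNpos, ← Real.rpow_natCast]; norm_num
    calc 2 * (3 * (N : ℝ)) ^ 2 = 18 * ((N : ℝ) ^ (1 - δ) * (N : ℝ) ^ (1 + δ)) := by rw [e3]; ring
      _ ≤ C * ((N : ℝ) ^ (1 - η) * Z) := by
        gcongr
      _ = _ := by ring
  · -- Weyl - van der Corput
    set h : ℝ := ((N : ℝ) ^ (Q + 3 / 2 : ℝ) / Z) ^ ((1 : ℝ) / Q) with hh
    have hhQ : h ^ Q = (N : ℝ) ^ (Q + 3 / 2 : ℝ) / Z := by
      rw [hh, ← Real.rpow_natCast, ← Real.rpow_mul (by positivity), one_div, inv_mul_cancel₀ (by positivity), Real.rpow_one]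
    have hh0 : 0 ≤ h := by rw [hh]; positivity
    have hlow : (N : ℝ) ^ (1 / 2 : ℝ) ≤ h ^ Q := by
      rw [hhQ, le_div_iff₀ hZ]
      calc (N : ℝ) ^ (1 / 2 : ℝ) * Z ≤ (N : ℝ) ^ (1 / 2 : ℝ) * (N : ℝ) ^ (Q + 1 : ℕ) := by gcongr
        _ = _ := by
          rw [← Real.rpow_natCast, ← Real.rpow_add hNpos]
          congr 1; push_cast; ring
    have hupp : h ^ Q ≤ (N : ℝ) ^ Q := by
      rw [hhQ, div_le_iff₀ hZ]
      calc (N : ℝ) ^ (Q + 3 / 2 : ℝ) ≤ (N : ℝ) ^ (Q + 7 / 4 : ℝ) := by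
            apply Real.rpow_le_rpow_of_exponent_le hN'; linarith
        _ = (N : ℝ) ^ Q * (N : ℝ) ^ (7 / 4 : ℝ) := by
            rw [Real.rpow_add hNpos, Real.rpow_natCast]
        _ ≤ _ := by gcongr
    have hhN : h ≤ N := le_of_pow_le_pow_left₀ (by omega) (by positivity) hupp
    have hN12 : (1 : ℝ) ≤ (N : ℝ) ^ (1 / 2 : ℝ) := Real.one_le_rpow hN' (by norm_num)
    have hh1 : 1 ≤ h := by
      by_contra hlt
      rw [not_le] at hlt
      have : h ^ Q ≤ 1 := pow_le_one₀ hh0 hlt.le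
      have h4 : (4 : ℝ) ≤ (N : ℝ) ^ (1 / 2 : ℝ) := by
        calc (4 : ℝ) = (16 : ℝ) ^ (1 / 2 : ℝ) := by
              rw [show (16 : ℝ) = 4 ^ (2 : ℝ) by norm_num, ← Real.rpow_mul (by norm_num)]; norm_num
          _ ≤ _ := by gcongr
      linarith
    set H : ℕ := ⌊h⌋₊ with hH
    have hH1 : 1 ≤ H := Nat.one_le_floor_iff _ |>.mpr hh1
    have hHle : (H : ℝ) ≤ h := Nat.floor_le hh0
    have hHN : H ≤ N := by exact_mod_cast hHle.trans hhN
    have hHge : h / 2 ≤ H := by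
      have h1 : h < H + 1 := Nat.lt_floor_add_one h
      have h2 : (1 : ℝ) ≤ H := by exact_mod_cast hH1
      linarith
    have hH1' : (1 : ℝ) ≤ H := by exact_mod_cast hH1
    have hsq : ((2 * (Q + 1).factorial : ℕ) : ℝ) ≤ (N : ℝ) ^ (1 / 2 : ℝ) := by
      rw [← Real.sqrt_eq_rpow]
      exact Real.le_sqrt_of_sq_le hfac
    have hZh : Z * h ^ Q = (N : ℝ) ^ (Q + 3 / 2 : ℝ) := by rw [hhQ]; field_simp
    have hcond : 2 * (Z * ((Q + 1).factorial / (N : ℝ) ^ (Q + 2) * (H : ℝ) ^ Q)) ≤ 1 := by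
      have e1 : (N : ℝ) ^ (Q + 2) = (N : ℝ) ^ (Q + 3 / 2 : ℝ) * (N : ℝ) ^ (1 / 2 : ℝ) := by
        rw [← Real.rpow_add hNpos, ← Real.rpow_natCast]; congr 1; push_cast; ring
      have e2 : 2 * (Z * ((Q + 1).factorial / (N : ℝ) ^ (Q + 2) * (H : ℝ) ^ Q)) =
          (2 * (Q + 1).factorial : ℕ) * (Z * (H : ℝ) ^ Q) / (N : ℝ) ^ (Q + 2) := by
        push_cast; ring
      rw [e2, div_le_one (by positivity), e1, ← hZh]
      calc ((2 * (Q + 1).factorial : ℕ) : ℝ) * (Z * (H : ℝ) ^ Q) ≤ (N : ℝ) ^ (1 / 2 : ℝ) * (Z * h ^ Q) := by gcongr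
        _ = _ := by ring
    have hb := exp_bound Q Z hZ N a L H hN ha hL haL hH1 hHN hcond
    -- first term
    have hhlow : (N : ℝ) ^ ((1 : ℝ) / (2 * Q)) ≤ h := by
      have : ((N : ℝ) ^ ((1 : ℝ) / (2 * Q))) ^ Q ≤ h ^ Q := by
        rw [← Real.rpow_natCast, ← Real.rpow_mul (by positivity)]
        refine le_trans (le_of_eq ?_) hlow
        congr 1; field_simp
      exact le_of_pow_le_pow_left₀ (by omega) hh0 this
    have hQpos : (0 : ℝ) < Q := by linarith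
    have hterm1 : 1 / (H : ℝ) ≤ 2 * (N : ℝ) ^ (-(1 : ℝ) / (4 * Q)) := by
      have h1 : (0 : ℝ) < (N : ℝ) ^ ((1 : ℝ) / (4 * Q)) := by positivity
      have h2 : (N : ℝ) ^ ((1 : ℝ) / (4 * Q)) ≤ (N : ℝ) ^ ((1 : ℝ) / (2 * Q)) := by
        apply Real.rpow_le_rpow_of_exponent_le hN'
        gcongr; norm_num
      rw [neg_div, Real.rpow_neg (by positivity), ← div_eq_mul_inv, div_le_div_iff₀ (by positivity) h1]
      linarith
    have hlog : 1 + Real.log H ≤ (1 + 4 * Q) * (N : ℝ) ^ ((1 : ℝ) / (4 * Q)) := by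
      have h1 : Real.log H ≤ Real.log N := Real.log_le_log (by positivity) (by exact_mod_cast hHN)
      have h2 := Real.log_le_rpow_div (x := N) (ε := (1 : ℝ) / (4 * Q)) (by positivity) (by positivity)
      have h3 : (N : ℝ) ^ ((1 : ℝ) / (4 * Q)) / ((1 : ℝ) / (4 * Q)) = 4 * Q * (N : ℝ) ^ ((1 : ℝ) / (4 * Q)) := by
        field_simp
      have h4 : (1 : ℝ) ≤ (N : ℝ) ^ ((1 : ℝ) / (4 * Q)) := Real.one_le_rpow hN' (by positivity)
      rw [h3] at h2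
      nlinarith
    have hterm2 : (2 * (3 * N) ^ (Q + 2) / (Z * (Q + 1).factorial) / N) * ((∑ l ∈ Ico 1 H, (1 : ℝ) / l) / H) ^ Q ≤
        (2 * 3 ^ (Q + 2) / (Q + 1).factorial) * 2 ^ Q * (1 + 4 * Q) ^ Q * (N : ℝ) ^ (-(1 : ℝ) / (4 * Q)) := by
      have hs0 : 0 ≤ ∑ l ∈ Ico 1 H, (1 : ℝ) / l := sum_nonneg fun _ _ => by positivity
      have h1 : ((∑ l ∈ Ico 1 H, (1 : ℝ) / l) / H) ^ Q ≤
          (((1 + 4 * Q) * (N : ℝ) ^ ((1 : ℝ) / (4 * Q))) / (h / 2)) ^ Q := by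
        gcongr
        exact (harm_le H).trans hlog
      have h2 : (((1 + 4 * Q) * (N : ℝ) ^ ((1 : ℝ) / (4 * Q))) / (h / 2)) ^ Q =
          (1 + 4 * Q) ^ Q * (N : ℝ) ^ ((1 : ℝ) / 4) * 2 ^ Q / h ^ Q := by
        rw [div_pow, mul_pow, div_pow, div_div_eq_mul_div]
        congr 3
        rw [← Real.rpow_natCast, ← Real.rpow_mul (by positivity)]
        congr 1; field_simp
      have h3 : (N : ℝ) ^ ((1 : ℝ) / 4) * (N : ℝ) ^ (Q + 1) * (N : ℝ) ^ ((1 : ℝ) / (4 * Q)) ≤ Z * h ^ Q := by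
        rw [hZh, ← Real.rpow_natCast, ← Real.rpow_add hNpos, ← Real.rpow_add hNpos]
        apply Real.rpow_le_rpow_of_exponent_le hN'
        have : (1 : ℝ) / (4 * Q) ≤ 1 / 4 := by
          rw [div_le_div_iff₀ (by positivity) (by norm_num)]; linarith
        push_cast; linarith
      have hNQ : (0 : ℝ) < (N : ℝ) ^ ((1 : ℝ) / (4 * Q)) := by positivity
      calc _ ≤ (2 * (3 * N) ^ (Q + 2) / (Z * (Q + 1).factorial) / N) *
            ((1 + 4 * Q) ^ Q * (N : ℝ) ^ ((1 : ℝ) / 4) * 2 ^ Q / h ^ Q) := by rw [← h2]; gcongr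
        _ = (2 * 3 ^ (Q + 2) / (Q + 1).factorial) * 2 ^ Q * (1 + 4 * Q) ^ Q *
            (((N : ℝ) ^ ((1 : ℝ) / 4) * (N : ℝ) ^ (Q + 1)) / (Z * h ^ Q)) := by
            rw [mul_pow, pow_succ (N : ℝ) (Q + 1)]
            exact alg_aux _ _ _ _ _ _ _ _ _ hZ.ne' hNpos.ne' (by positivity) (by positivity)
        _ ≤ _ := by
            gcongr
            rw [neg_div, Real.rpow_neg (by positivity), ← one_div, div_le_div_iff₀ (by positivity) hNQ]
            linarith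
    have hfin : (‖SS Z a L []‖ / N) ^ (2 ^ Q) ≤ K * (N : ℝ) ^ (-(1 : ℝ) / (4 * Q)) := by
      refine hb.trans ?_
      calc _ ≤ Cq Q * (2 * (N : ℝ) ^ (-(1 : ℝ) / (4 * Q)) +
            (2 * 3 ^ (Q + 2) / (Q + 1).factorial) * 2 ^ Q * (1 + 4 * Q) ^ Q * (N : ℝ) ^ (-(1 : ℝ) / (4 * Q))) := by
            gcongr
        _ = _ := by rw [hK]; ring
    have hroot : ‖SS Z a L []‖ / N ≤ K ^ ((1 : ℝ) / 2 ^ Q) * (N : ℝ) ^ (-η) := by
      have h1 : (‖SS Z a L []‖ / N) = ((‖SS Z a L []‖ / N) ^ (2 ^ Q)) ^ ((1 : ℝ) / 2 ^ Q) := by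
        rw [← Real.rpow_natCast, ← Real.rpow_mul (by positivity)]
        push_cast
        rw [mul_one_div_cancel (by positivity), Real.rpow_one]
      rw [h1]
      calc _ ≤ (K * (N : ℝ) ^ (-(1 : ℝ) / (4 * Q))) ^ ((1 : ℝ) / 2 ^ Q) := by gcongr
        _ = K ^ ((1 : ℝ) / 2 ^ Q) * (N : ℝ) ^ (-(1 : ℝ) / (4 * Q) * (1 / 2 ^ Q)) := by
            rw [Real.mul_rpow hK0.le (by positivity), ← Real.rpow_mul (by positivity)]
        _ ≤ _ := by
            gcongr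
            have : -(1 : ℝ) / (4 * Q) * (1 / 2 ^ Q) = -(1 / (4 * Q * 2 ^ Q)) := by
              field_simp
            rw [this]; linarith
    rw [div_le_iff₀ hNpos] at hroot
    calc ‖SS Z a L []‖ ≤ K ^ ((1 : ℝ) / 2 ^ Q) * (N : ℝ) ^ (-η) * N := hroot
      _ ≤ C * (N : ℝ) ^ (-η) * N := by gcongr
      _ = _ := by
        rw [mul_assoc, sub_eq_neg_add, Real.rpow_add hNpos, Real.rpow_one]

end Pool.Agent.H469R2.NK
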